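import Pool.Agent.Helper87.EX.Defs

/-! Project EX, module P : the prism identity and the additivity of its mirror-odd part. -/

set_option autoImplicit false

namespace Pool.Agent.Helper34.EXP

open Pool.Agent.Helper87.EX

section prism

variable {H : Type*} [Group H]

theorem pri_zero (a : H) (s : Fin 4 → H) :
    pri a s 0 = ![s 0, a * s 0, a * s 1, a * s 2, a * s 3] := by
  funext j; fin_cases j <;> rfl

theorem pri_one (a : H) (s : Fin 4 → H) :
    pri a s 1 = ![s 0, s 1, a * s 1, a * s 2, a * s 3] := by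
  funext j; fin_cases j <;> rfl

theorem pri_two (a : H) (s : Fin 4 → H) :
    pri a s 2 = ![s 0, s 1, s 2, a * s 2, a * s 3] := by
  funext j; fin_cases j <;> rfl

theorem pri_three (a : H) (s : Fin 4 → H) :
    pri a s 3 = ![s 0, s 1, s 2, s 3, a * s 3] := by
  funext j; fin_cases j <;> rfl

theorem Pr_eq (c : (Fin 5 → H) → ℝ) (a : H) (s : Fin 4 → H) :
    Pr c a s = c ![s 0, a * s 0, a * s 1, a * s 2, a * s 3]
      - c ![s 0, s 1, a * s 1, a * s 2, a * s 3]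
      + c ![s 0, s 1, s 2, a * s 2, a * s 3]
      - c ![s 0, s 1, s 2, s 3, a * s 3] := by
  unfold Pr
  rw [Fin.sum_univ_four, pri_zero, pri_one, pri_two, pri_three]
  simp
  ring

theorem dd_six {X : Type*} (c : (Fin 5 → X) → ℝ) (x0 x1 x2 x3 x4 x5 : X) :
    dd c ![x0, x1, x2, x3, x4, x5] = c ![x1, x2, x3, x4, x5] - c ![x0, x2, x3, x4, x5]
      + c ![x0, x1, x3, x4, x5] - c ![x0, x1, x2, x4, x5] + c ![x0, x1, x2, x3, x5]
      - c ![x0, x1, x2, x3, x4] := by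
  unfold dd
  rw [Fin.sum_univ_six]
  have h0 : (fun j => (![x0, x1, x2, x3, x4, x5] : Fin 6 → X) (Fin.succAbove 0 j))
      = ![x1, x2, x3, x4, x5] := by funext j; fin_cases j <;> rfl
  have h1 : (fun j => (![x0, x1, x2, x3, x4, x5] : Fin 6 → X) (Fin.succAbove 1 j))
      = ![x0, x2, x3, x4, x5] := by funext j; fin_cases j <;> rfl
  have h2 : (fun j => (![x0, x1, x2, x3, x4, x5] : Fin 6 → X) (Fin.succAbove 2 j))
      = ![x0, x1, x3, x4, x5] := by funext j; fin_cases j <;> rfl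
  have h3 : (fun j => (![x0, x1, x2, x3, x4, x5] : Fin 6 → X) (Fin.succAbove 3 j))
      = ![x0, x1, x2, x4, x5] := by funext j; fin_cases j <;> rfl
  have h4 : (fun j => (![x0, x1, x2, x3, x4, x5] : Fin 6 → X) (Fin.succAbove 4 j))
      = ![x0, x1, x2, x3, x5] := by funext j; fin_cases j <;> rfl
  have h5 : (fun j => (![x0, x1, x2, x3, x4, x5] : Fin 6 → X) (Fin.succAbove 5 j))
      = ![x0, x1, x2, x3, x4] := by funext j; fin_cases j <;> rfl
  rw [h0, h1, h2, h3, h4, h5]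
  norm_num [Fin.val_zero, Fin.val_one]
  ring

/-- the prism of prisms -/
noncomputable def Qp {X : Type*} (c : (Fin 5 → X) → ℝ) (A0 A1 A2 B0 B1 B2 C0 C1 C2 : X) : ℝ :=
  c ![A0, B0, C0, C1, C2] - c ![A0, B0, B1, C1, C2] + c ![A0, B0, B1, B2, C2]
    + c ![A0, A1, B1, C1, C2] - c ![A0, A1, B1, B2, C2] + c ![A0, A1, A2, B2, C2]

theorem prism3 {X : Type*} (c : (Fin 5 → X) → ℝ) (hd : ∀ x, dd c x = 0)
    (A0 A1 A2 A3 B0 B1 B2 B3 C0 C1 C2 C3 : X) :
    c ![A0, C0, C1, C2, C3] - c ![A0, A1, C1, C2, C3] + c ![A0, A1, A2, C2, C3]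
      - c ![A0, A1, A2, A3, C3]
    = (c ![A0, B0, B1, B2, B3] - c ![A0, A1, B1, B2, B3] + c ![A0, A1, A2, B2, B3]
      - c ![A0, A1, A2, A3, B3])
    + (c ![B0, C0, C1, C2, C3] - c ![B0, B1, C1, C2, C3] + c ![B0, B1, B2, C2, C3]
      - c ![B0, B1, B2, B3, C3])
    + (Qp c A1 A2 A3 B1 B2 B3 C1 C2 C3 - Qp c A0 A2 A3 B0 B2 B3 C0 C2 C3
      + Qp c A0 A1 A3 B0 B1 B3 C0 C1 C3 - Qp c A0 A1 A2 B0 B1 B2 C0 C1 C2) := by
  have e00 := hd ![A0, B0, C0, C1, C2, C3]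
  have e01 := hd ![A0, B0, B1, C1, C2, C3]
  have e02 := hd ![A0, B0, B1, B2, C2, C3]
  have e03 := hd ![A0, B0, B1, B2, B3, C3]
  have e11 := hd ![A0, A1, B1, C1, C2, C3]
  have e12 := hd ![A0, A1, B1, B2, C2, C3]
  have e13 := hd ![A0, A1, B1, B2, B3, C3]
  have e22 := hd ![A0, A1, A2, B2, C2, C3]
  have e23 := hd ![A0, A1, A2, B2, B3, C3]
  have e33 := hd ![A0, A1, A2, A3, B3, C3]
  rw [dd_six] at e00 e01 e02 e03 e11 e12 e13 e22 e23 e33
  unfold Qp
  linear_combination -(e00 - e01 + e02 - e03 + e11 - e12 + e13 + e22 - e23 + e33)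

theorem prism_add (c : (Fin 5 → H) → ℝ) (hL : LInv c) (hd : ∀ x, dd c x = 0) (a b : H)
    (s : Fin 4 → H) :
    Pr c (a * b) s = Pr c a s + Pr c b s
      + (Qp c (s 1) (s 2) (s 3) (a * s 1) (a * s 2) (a * s 3)
            (a * b * s 1) (a * b * s 2) (a * b * s 3)
          - Qp c (s 0) (s 2) (s 3) (a * s 0) (a * s 2) (a * s 3)
            (a * b * s 0) (a * b * s 2) (a * b * s 3)
          + Qp c (s 0) (s 1) (s 3) (a * s 0) (a * s 1) (a * s 3)
            (a * b * s 0) (a * b * s 1) (a * b * s 3)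
          - Qp c (s 0) (s 1) (s 2) (a * s 0) (a * s 1) (a * s 2)
            (a * b * s 0) (a * b * s 1) (a * b * s 2)) := by
  have hl : ∀ x0 x1 x2 x3 x4 : H,
      c ![a * x0, a * x1, a * x2, a * x3, a * x4] = c ![x0, x1, x2, x3, x4] := by
    intro x0 x1 x2 x3 x4
    rw [← hL a ![x0, x1, x2, x3, x4]]
    congr 1
    funext j
    fin_cases j <;> rfl
  have h := prism3 c hd (s 0) (s 1) (s 2) (s 3) (a * s 0) (a * s 1) (a * s 2) (a * s 3)
    (a * b * s 0) (a * b * s 1) (a * b * s 2) (a * b * s 3)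
  rw [Pr_eq, Pr_eq, Pr_eq, h]
  have k0 := hl (s 0) (b * s 0) (b * s 1) (b * s 2) (b * s 3)
  have k1 := hl (s 0) (s 1) (b * s 1) (b * s 2) (b * s 3)
  have k2 := hl (s 0) (s 1) (s 2) (b * s 2) (b * s 3)
  have k3 := hl (s 0) (s 1) (s 2) (s 3) (b * s 3)
  simp only [← mul_assoc] at k0 k1 k2 k3
  rw [k0, k1, k2, k3]

end prism

end Pool.Agent.Helper34.EXP
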